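import Pool.Agent.N949.PG.Def

/-!
Project PG (helper949), job TWO: diamond words of two lengths.  By helper232.
-/

set_option autoImplicit false

namespace Pool.Agent.N232.PG

open Finset
open Pool.Agent.N941.SP
open Pool.Agent.H122R3.SX

/-- a word with pairwise different prefix positions is self-avoiding -/
theorem saw_of {w : W} (h : ∀ i j, i < j → j ≤ w.length →
    ∃ a, pos (w.take i) a ≠ pos (w.take j) a) : Saw w := by
  rintro v ⟨s, t, rfl⟩ h0
  have h1 : 0 < v.length := List.length_pos_iff.2 h0
  obtain ⟨a, ha⟩ := h s.length (s.length + v.length) (by omega) (by simp)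
  refine ⟨a, fun hv => ha ?_⟩
  have e1 : (s ++ v ++ t).take s.length = s := by
    rw [List.append_assoc, List.take_left']; rfl
  have e2 : (s ++ v ++ t).take (s.length + v.length) = s ++ v := by
    rw [List.take_left']; simp
  rw [e1, e2, pos_append, hv, add_zero]

/-- positions of the prefixes of a diamond word -/
theorem dm_pre {Y : ℤ} (hY : 1 ≤ Y) {w v : W} (h : Dm Y w) (hv : v <+: w) :
    2 * |X v| + |2 * pos v 0 - Y| ≤ Y := by
  by_cases h0 : v = []
  · subst h0
    simp only [X_nil, pos_nil, abs_zero, mul_zero, zero_sub, abs_neg, zero_add]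
    rw [abs_of_nonneg (by omega)]
  · by_cases h1 : v = w
    · subst h1
      rw [h.hor, h.top, abs_zero, abs_of_nonneg (by omega)]
      omega
    · exact (h.mid v hv h0 h1).le

theorem dm_low {Y : ℤ} (hY : 1 ≤ Y) {w v : W} (h : Dm Y w) (hv : v <+: w) (h0 : v ≠ []) :
    1 ≤ pos v 0 := by
  by_cases h1 : v = w
  · subst h1; rw [h.top]; exact hY
  · have := h.mid v hv h0 h1
    have h2 := abs_nonneg (X v)
    have h3 := neg_abs_le (2 * pos v 0 - Y)
    omega

theorem dm_low' {Y : ℤ} (hY : 1 ≤ Y) {w v : W} (h : Dm Y w) (hv : v <+: w) : 0 ≤ pos v 0 := by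
  by_cases h0 : v = []
  · subst h0; simp
  · have := dm_low hY h hv h0
    omega

theorem saw_cons0 {w : W} (h : Saw w) (hp : ∀ v, v <+: w → 0 ≤ pos v 0) : Saw (0 :: w) := by
  intro v hv h0
  rcases List.infix_cons_iff.1 hv with hv | hv
  · rcases v with _ | ⟨a, v'⟩
    · exact absurd rfl h0
    · rw [List.cons_prefix_cons] at hv
      refine ⟨0, ?_⟩
      rw [pos_cons, hv.1]
      have := hp v' hv.2
      have h1 : st 0 0 = 1 := by decide
      omega
  · exact h v hv h0

theorem dm_high {Y : ℤ} (hY : 1 ≤ Y) {w v : W} (h : Dm Y w) (hv : v <+: w) : pos v 0 ≤ Y := by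
  have := dm_pre hY h hv
  have h2 := abs_nonneg (X v)
  have h3 := le_abs_self (2 * pos v 0 - Y)
  omega

theorem ne_nil (w : W) (hl : w.length = 0) : w = [] := List.length_eq_zero_iff.1 hl

theorem saw2 : Saw ([0, 0] : W) := by
  apply saw_of
  intro i j hij hj
  have h2 : ([0, 0] : W).length = 2 := rfl
  rw [h2] at hj
  refine ⟨0, ?_⟩
  interval_cases j <;> interval_cases i <;> decide

theorem pre2 {v : W} (h : v <+: ([0, 0] : W)) : v = [] ∨ v = [0] ∨ v = [0, 0] := by
  obtain ⟨t, ht⟩ := h
  rcases v with _ | ⟨a, _ | ⟨b, v⟩⟩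
  · exact Or.inl rfl
  · simp only [List.cons_append, List.nil_append, List.cons.injEq] at ht
    rw [ht.1]; exact Or.inr (Or.inl rfl)
  · simp only [List.cons_append, List.cons.injEq] at ht
    have : v = [] := by
      have := congrArg List.length ht.2.2
      simp only [List.length_append, List.length_nil] at this
      exact ne_nil _ (by omega)
    rw [ht.1, ht.2.1, this]; exact Or.inr (Or.inr rfl)

/-- the extension by two vertical steps at both ends -/
theorem extend {Y : ℤ} (hY : 1 ≤ Y) {w : W} (hs : Saw w) (ht : pos w 0 = Y) (hx : X w = 0)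
    (hlow : ∀ v, v <+: w → 0 ≤ pos v 0) (hhigh : ∀ v, v <+: w → pos v 0 ≤ Y)
    (hmid : ∀ v, v <+: w → 2 * |X v| + |2 * pos v 0 - Y| ≤ Y + 2) :
    Dm (Y + 4) (([0, 0] ++ w) ++ [0, 0]) := by
  have p2 : pos ([0, 0] : W) 0 = 2 := by decide
  have x2 : X ([0, 0] : W) = 0 := by decide
  have h1 : Saw ([0, 0] ++ w) := by
    apply saw_cons0 (saw_cons0 hs hlow)
    intro v hv
    rcases v with _ | ⟨a, v'⟩
    · simp
    · change a :: v' <+: 0 :: w at hv
      rw [List.cons_prefix_cons] at hv
      rw [pos_cons, hv.1]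
      have := hlow v' hv.2
      have h1 : st 0 0 = 1 := by decide
      omega
  have e1 : pos ([0, 0] ++ w) 0 = Y + 2 := by rw [pos_append, p2, ht]; ring
  have f1 : X ([0, 0] ++ w) = 0 := by rw [X_append, x2, hx]; rfl
  refine ⟨?_, ?_, ?_, ?_⟩
  · apply saw_append h1 saw2 e1
    · intro v hv
      rcases prefix_append_cases hv with hv | ⟨p, rfl, hp⟩
      · rcases pre2 hv with rfl | rfl | rfl
        · simp only [pos_nil]; omega
        · have : pos ([0] : W) 0 = 1 := by decide
          omega
        · omega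
      · rw [pos_append, p2]
        have := hhigh p hp
        omega
    · intro v hv hv0
      rcases pre2 hv with rfl | rfl | rfl
      · exact absurd rfl hv0
      · decide
      · decide
  · rw [pos_append, e1, p2]; ring
  · rw [X_append, f1, x2]; rfl
  · intro v hv hv0 hvw
    rcases prefix_append_cases hv with hv | ⟨p, rfl, hp⟩
    · rcases prefix_append_cases hv with hv | ⟨p, rfl, hp⟩
      · rcases pre2 hv with rfl | rfl | rfl
        · exact absurd rfl hv0
        · have h1 : pos ([0] : W) 0 = 1 := by decide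
          have h2 : X ([0] : W) = 0 := by decide
          rw [h1, h2, abs_zero, abs_of_nonpos (by omega)]
          omega
        · rw [p2, x2, abs_zero]
          have : |2 * 2 - (Y + 4)| = Y := by
            rw [abs_of_nonpos (by omega)]; ring
          rw [this]; omega
      · rw [pos_append, X_append, p2, x2, zero_add]
        have := hmid p hp
        have e : 2 * (2 + pos p 0) - (Y + 4) = 2 * pos p 0 - Y := by ring
        rw [e]; omega
    · rcases pre2 hp with rfl | rfl | rfl
      · rw [List.append_nil, e1, f1, abs_zero, abs_of_nonneg (by omega)]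
        omega
      · have h1 : pos ([0] : W) 0 = 1 := by decide
        have h2 : X ([0] : W) = 0 := by decide
        rw [pos_append, X_append, e1, f1, h1, h2, add_zero, abs_zero, abs_of_nonneg (by omega)]
        omega
      · exact absurd rfl hvw

theorem partA (Y : ℤ) (m : ℕ) (hY : 1 ≤ Y) : dm Y m ≤ dm (Y + 4) (m + 4) := by
  unfold dm
  apply Finset.card_le_card_of_injOn (fun w => ([0, 0] ++ w) ++ [0, 0])
  · intro w hw
    rw [mem_coe, mem_fs] at hw ⊢
    refine ⟨extend hY hw.1.saw hw.1.top hw.1.hor (fun v hv => dm_low' hY hw.1 hv)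
      (fun v hv => dm_high hY hw.1 hv) (fun v hv => ?_), ?_⟩
    · have := dm_pre hY hw.1 hv
      omega
    · simp only [List.length_append, hw.2, List.length_cons, List.length_nil]
      omega
  · intro w _ w' _ h
    simp only at h
    exact List.append_cancel_left (List.append_cancel_right h)

theorem let3 : ∀ l : Fin 4, st l 1 < 0 → l = 3 := by decide
theorem let2 : ∀ l : Fin 4, 0 < st l 1 → l = 2 := by decide
theorem back : ∀ a : Fin 2, pos (([2] : W) ++ [3]) a = 0 := by decide
theorem ver : ∀ l : Fin 4, st l 1 = 0 → st l 0 ≠ 0 := by decide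

/-- a vertical step at the first visit of the rightmost column -/
theorem exists_step {Y : ℤ} (hY : 1 ≤ Y) {w : W} (h : Dm Y w) :
    ∃ u l v, w = u ++ l :: v ∧ st l 1 = 0 ∧ 0 ≤ X u ∧ ∀ p, p <+: w → X p ≤ X u := by
  classical
  -- the maximum
  obtain ⟨k, hk, hmax⟩ := Finset.exists_max_image (Finset.range (w.length + 1))
    (fun k => X (w.take k)) ⟨0, by simp⟩
  have hex : ∃ k, k ≤ w.length ∧ ∀ p, p <+: w → X p ≤ X (w.take k) := by
    refine ⟨k, by simpa [Nat.lt_succ_iff] using hk, fun p hp => ?_⟩
    have h1 := hmax p.length (by simpa [Nat.lt_succ_iff] using hp.length_le)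
    rw [← List.prefix_iff_eq_take.1 hp] at h1
    exact h1
  set i := Nat.find hex with hi
  obtain ⟨hi1, hi2⟩ := Nat.find_spec hex
  rw [← hi] at hi1 hi2
  have hmin : ∀ k < i, X (w.take k) < X (w.take i) := by
    intro k hk
    have := Nat.find_min hex hk
    by_contra hc
    apply this
    refine ⟨by omega, fun p hp => (hi2 p hp).trans (not_lt.1 hc)⟩
  have h0X : 0 ≤ X (w.take i) := by
    have := hi2 [] (List.nil_prefix)
    simpa using this
  have hilt : i < w.length := by
    rcases hi1.lt_or_eq with hlt | heq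
    · exact hlt
    · exfalso
      rw [heq, List.take_length, h.hor] at hmin
      have hi0 : i = 0 := by
        by_contra hne
        have := hmin 0 (by omega)
        simp at this
      have : w = [] := ne_nil _ (by omega)
      have ht := h.top
      rw [this, pos_nil] at ht
      omega
  have hdec : w = w.take i ++ w[i] :: w.drop (i + 1) := by
    rw [← List.drop_eq_getElem_cons hilt, List.take_append_drop]
  refine ⟨w.take i, w[i], w.drop (i + 1), hdec, ?_, h0X, hi2⟩
  set l := w[i] with hl
  have hsucc : w.take (i + 1) = w.take i ++ [l] := by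
    rw [List.take_succ_eq_append_getElem hilt]
  have hle : st l 1 ≤ 0 := by
    have h1 := hi2 _ (List.take_prefix (i + 1) w)
    rw [hsucc, X_append] at h1
    have : X [l] = st l 1 := by simp [X]
    omega
  by_contra hne
  have hlt : st l 1 < 0 := lt_of_le_of_ne hle hne
  have hl3 : l = 3 := by
    exact let3 l hlt
  by_cases hi0 : i = 0
  · -- the first step
    have hp : [l] <+: w := by
      have := List.take_prefix (i + 1) w
      rw [hsucc, hi0, List.take_zero, List.nil_append] at this
      exact this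
    have hX : X [l] = -1 := by rw [hl3]; decide
    have hP : pos [l] 0 = 0 := by rw [hl3]; decide
    have h1 := dm_low hY h hp (by simp)
    omega
  · obtain ⟨i', hi'⟩ : ∃ i', i = i' + 1 := ⟨i - 1, by omega⟩
    have hi'lt : i' < w.length := by omega
    have hs2 : w.take i = w.take i' ++ [w[i']] := by
      rw [hi', List.take_succ_eq_append_getElem hi'lt]
    set l' := w[i'] with hl'
    have h2 : 0 < st l' 1 := by
      have h1 := hmin i' (by omega)
      rw [hs2, X_append] at h1
      have : X [l'] = st l' 1 := by simp [X]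
      omega
    have hl2 : l' = 2 := by
      exact let2 l' h2
    obtain ⟨a, ha⟩ := h.saw.take_ne (i := i') (j := i + 1) (by omega) (by omega)
    apply ha
    rw [hsucc, hs2, hl3, hl2, List.append_assoc, pos_append]
    have : pos (([2] : W) ++ [3]) a = 0 := back a
    rw [this, add_zero]

/-- prefixes of the word with the insertion -/
theorem ins_cases (u v : W) (l : Fin 4) (k : ℕ) :
    (k ≤ u.length ∧ (u ++ 2 :: l :: 3 :: v).take k = (u ++ l :: v).take k) ∨
    (k = u.length + 1 ∧ (u ++ 2 :: l :: 3 :: v).take k = u ++ [2]) ∨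
    (k = u.length + 2 ∧ (u ++ 2 :: l :: 3 :: v).take k = u ++ [2, l]) ∨
    (u.length + 3 ≤ k ∧ ∀ a, pos ((u ++ 2 :: l :: 3 :: v).take k) a =
      pos ((u ++ l :: v).take (k - 2)) a) := by
  rcases Nat.lt_or_ge u.length k with h | h
  · obtain ⟨d, rfl⟩ : ∃ d, k = u.length + (d + 1) := ⟨k - u.length - 1, by omega⟩
    rw [List.take_length_add_append]
    rcases d with _ | _ | d
    · right; left
      exact ⟨by omega, by simp⟩
    · right; right; left
      exact ⟨by omega, by simp⟩
    · right; right; right
      refine ⟨by omega, fun a => ?_⟩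
      have e1 : u.length + (d + 1 + 1 + 1) - 2 = u.length + (d + 1) := by omega
      rw [e1, List.take_length_add_append]
      simp only [List.take_succ_cons, pos_append, pos_cons]
      have h1 : st 2 a + st 3 a = 0 := by
        have := back a
        simpa using this
      omega
  · left
    refine ⟨h, ?_⟩
    rw [List.take_append_of_le_length h, List.take_append_of_le_length h]

theorem ins_saw {u v : W} {l : Fin 4} (hs : Saw (u ++ l :: v)) (hl : st l 1 = 0)
    (hX : ∀ p, p <+: u ++ l :: v → X p ≤ X u) : Saw (u ++ 2 :: l :: 3 :: v) := by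
  apply saw_of
  intro i j hij hj
  have hlen : (u ++ 2 :: l :: 3 :: v).length = (u ++ l :: v).length + 2 := by
    simp only [List.length_append, List.length_cons]; omega
  rw [hlen] at hj
  have x2 : X (u ++ [2]) = X u + 1 := by
    rw [X_append]; rfl
  have x3 : X (u ++ [2, l]) = X u + 1 := by
    rw [X_append]; unfold X; rw [pos_cons, pos_cons, pos_nil, hl]; rfl
  have hXt : ∀ k, X ((u ++ l :: v).take k) ≤ X u := fun k => hX _ (List.take_prefix _ _)
  rcases ins_cases u v l i with ⟨hi, ei⟩ | ⟨hi, ei⟩ | ⟨hi, ei⟩ | ⟨hi, ei⟩ <;>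
  rcases ins_cases u v l j with ⟨hj', ej⟩ | ⟨hj', ej⟩ | ⟨hj', ej⟩ | ⟨hj', ej⟩
  · rw [ei, ej]
    exact hs.take_ne hij (by simp only [List.length_append, List.length_cons]; omega)
  · refine ⟨1, ?_⟩
    rw [ei, ej]
    have := hXt i
    unfold X at *
    omega
  · refine ⟨1, ?_⟩
    rw [ei, ej]
    have := hXt i
    unfold X at *
    omega
  · obtain ⟨a, ha⟩ := hs.take_ne (i := i) (j := j - 2) (by omega) (by omega)
    refine ⟨a, ?_⟩
    rw [ei, ej a]
    exact ha
  · omega
  · omega
  · refine ⟨0, ?_⟩
    rw [ei, ej, pos_append, pos_append, pos_cons, pos_cons, pos_cons, pos_nil]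
    have := ver l hl
    omega
  · refine ⟨1, ?_⟩
    rw [ei, ej 1]
    have := hXt (j - 2)
    unfold X at *
    omega
  · omega
  · omega
  · omega
  · refine ⟨1, ?_⟩
    rw [ei, ej 1]
    have := hXt (j - 2)
    unfold X at *
    omega
  · omega
  · omega
  · omega
  · obtain ⟨a, ha⟩ := hs.take_ne (i := i - 2) (j := j - 2) (by omega) (by omega)
    refine ⟨a, ?_⟩
    rw [ei a, ej a]
    exact ha

/-- heights and columns of the prefixes -/
theorem ins_pre (u v : W) {l : Fin 4} (hl : st l 1 = 0) {p : W}
    (hp : p <+: u ++ 2 :: l :: 3 :: v) :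
    (∃ q, q <+: u ++ l :: v ∧ X p = X q ∧ pos p 0 = pos q 0) ∨
    (∃ q, q <+: u ++ l :: v ∧ X p = X u + 1 ∧ X q = X u ∧ pos p 0 = pos q 0) := by
  have e := List.prefix_iff_eq_take.1 hp
  have x2 : X (u ++ [2]) = X u + 1 := by
    rw [X_append]; rfl
  have x3 : X (u ++ [2, l]) = X u + 1 := by
    rw [X_append]; unfold X; rw [pos_cons, pos_cons, pos_nil, hl]; rfl
  rcases ins_cases u v l p.length with ⟨_, ei⟩ | ⟨_, ei⟩ | ⟨_, ei⟩ | ⟨_, ei⟩
  · left
    rw [ei] at e
    exact ⟨_, List.take_prefix p.length _, by rw [← e], by rw [← e]⟩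
  · right
    rw [ei] at e
    refine ⟨u, List.prefix_append _ _, by rw [e, x2], rfl, ?_⟩
    rw [e, pos_append]
    have : pos ([2] : W) 0 = 0 := by decide
    omega
  · right
    rw [ei] at e
    refine ⟨u ++ [l], ⟨v, by simp⟩, by rw [e, x3], ?_, ?_⟩
    · rw [X_append]; unfold X; rw [pos_cons, pos_nil, hl]; omega
    · rw [e, pos_append, pos_append, pos_cons, pos_cons]
      have : st 2 0 = 0 := by decide
      omega
  · left
    refine ⟨_, List.take_prefix (p.length - 2) _, ?_, ?_⟩
    · rw [← e] at ei
      exact ei 1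
    · rw [← e] at ei
      exact ei 0

theorem partB (Y : ℤ) (m : ℕ) (hY : 1 ≤ Y) : dm Y m ≤ (m + 1) * dm (Y + 4) (m + 6) := by
  classical
  have key : ∀ w : W, ∃ q : ℕ × W, (Dm Y w ∧ w.length = m) →
      (q.1 ≤ m ∧ Dm (Y + 4) q.2 ∧ q.2.length = m + 6) ∧
      ∃ u l v, w = u ++ l :: v ∧ q = (u.length, ([0, 0] ++ (u ++ 2 :: l :: 3 :: v)) ++ [0, 0]) := by
    intro w
    by_cases h : Dm Y w ∧ w.length = m
    · obtain ⟨u, l, v, hw, hl, hX0, hX⟩ := exists_step hY h.1
      refine ⟨(u.length, ([0, 0] ++ (u ++ 2 :: l :: 3 :: v)) ++ [0, 0]), fun _ =>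
        ⟨⟨?_, ?_, ?_⟩, u, l, v, hw, rfl⟩⟩
      · rw [← h.2, hw]; simp
      · obtain ⟨h, -⟩ := h
        subst hw
        have x3 : pos (u ++ 2 :: l :: 3 :: v) 0 = pos (u ++ l :: v) 0 := by
          simp only [pos_append, pos_cons]
          have h1 : st 2 0 = 0 := by decide
          have h2 : st 3 0 = 0 := by decide
          omega
        have x4 : X (u ++ 2 :: l :: 3 :: v) = X (u ++ l :: v) := by
          unfold X
          simp only [pos_append, pos_cons]
          have h1 : st 2 1 = 1 := by decide
          have h2 : st 3 1 = -1 := by decide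
          omega
        apply extend hY (ins_saw h.saw hl hX) (by rw [x3, h.top]) (by rw [x4, h.hor])
        · intro p hp
          rcases ins_pre u v hl hp with ⟨q, hq, h1, h2⟩ | ⟨q, hq, h1, h2, h3⟩
          · rw [h2]; exact dm_low' hY h hq
          · rw [h3]; exact dm_low' hY h hq
        · intro p hp
          rcases ins_pre u v hl hp with ⟨q, hq, h1, h2⟩ | ⟨q, hq, h1, h2, h3⟩
          · rw [h2]; exact dm_high hY h hq
          · rw [h3]; exact dm_high hY h hq
        · intro p hp
          rcases ins_pre u v hl hp with ⟨q, hq, h1, h2⟩ | ⟨q, hq, h1, h2, h3⟩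
          · rw [h1, h2]
            have := dm_pre hY h hq
            omega
          · have := dm_pre hY h hq
            rw [h1, h3]
            rw [h2, abs_of_nonneg hX0] at this
            rw [abs_of_nonneg (by omega)]
            omega
      · rw [← h.2, hw]
        simp only [List.length_append, List.length_cons, List.length_nil]
        omega
    · exact ⟨(0, []), fun h' => absurd h' h⟩
  choose φ hφ using key
  have hcard : dm Y m ≤ (Finset.range (m + 1) ×ˢ fs (Dm (Y + 4)) (m + 6)).card := by
    unfold dm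
    apply Finset.card_le_card_of_injOn φ
    · intro w hw
      rw [mem_coe, mem_fs] at hw
      obtain ⟨⟨h1, h2, h3⟩, -⟩ := hφ w hw
      rw [mem_coe, Finset.mem_product, Finset.mem_range, mem_fs]
      exact ⟨by omega, h2, h3⟩
    · intro w hw w' hw' h
      rw [mem_coe, mem_fs] at hw hw'
      obtain ⟨-, u, l, v, h1, h2⟩ := hφ w hw
      obtain ⟨-, u', l', v', h1', h2'⟩ := hφ w' hw'
      rw [h2, h2', Prod.mk.injEq] at h
      obtain ⟨h3, h4⟩ := h
      have h5 := List.append_cancel_left (List.append_cancel_right h4)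
      obtain ⟨h6, h7⟩ := List.append_inj h5 h3
      simp only [List.cons.injEq, true_and] at h7
      rw [h1, h1', h6, h7.1, h7.2]
  rw [Finset.card_product, Finset.card_range] at hcard
  exact hcard

theorem t_TWO : Pool.Agent.N949.PG.S_TWO := fun Y m hY => ⟨partA Y m hY, partB Y m hY⟩

end Pool.Agent.N232.PG
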